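import Pool.Agent.W709.RT.Full
import Pool.Agent.W707.FE.Cor2

/-! The expansion and its corollaries for the R-matrix invariant of the (1,1)-tangle. -/

set_option autoImplicit false

namespace Pool.Agent.W707.RT

open Filter Finset EvenVol Pool.Agent.H112R4.VL Pool.Agent.W709.VC Pool.Agent.W707.FE
open Pool.Agent.W709.RT (jt jt_v0)
open scoped Real Topology

theorem jt_eq_kap {A N : ℕ} (hN : 2 ≤ N) : jt A N (v0 N) = ((kap A N : ℝ) : ℂ) :=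
  jt_v0 hN (jd_limit s_gam A hN)

/-- full asymptotic expansion -/
theorem expansion {A : ℕ} (hA : 4 ≤ A) : ∃ (V : ℝ) (φ : ℕ → ℂ),
    IsGreatest {W : ℝ | ∃ w, IsAngle A A w ∧ volw A A w = W} V ∧
    0 < (φ 0).re ∧ (∀ k, (φ k * (2 * π * Complex.I) ^ k).im = 0) ∧
    ∀ M : ℕ, ∃ C : ℝ, ∀ᶠ N : ℕ in atTop,
      ‖jt A N (v0 N) - (((N : ℝ) ^ (3 / 2 : ℝ) * Real.exp (V / (2 * π) * N) : ℝ) : ℂ) *
        ∑ k ∈ range M, φ k * (2 * π * Complex.I / N) ^ k‖ ≤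
      C * ((N : ℝ) ^ (3 / 2 : ℝ) * Real.exp (V / (2 * π) * N) * ((N : ℝ)⁻¹) ^ M) := by
  obtain ⟨κ, V, φ, h1, h2, h3, h4, h5⟩ := main_expansion hA
  refine ⟨V, φ, h2, h3, h4, fun M => ?_⟩
  obtain ⟨C, hC⟩ := h5 M
  refine ⟨C, ?_⟩
  filter_upwards [hC, eventually_ge_atTop 2] with N hN hN2
  rw [jt_v0 hN2 (h1 N hN2)]
  exact hN

/-- ratios with step two -/
theorem ratio_two {A : ℕ} (hA : 4 ≤ A) : ∃ V : ℝ,
    IsGreatest {W : ℝ | ∃ w, IsAngle A A w ∧ volw A A w = W} V ∧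
    ∃ C : ℝ, ∀ᶠ n : ℕ in atTop, jt A n (v0 n) ≠ 0 ∧
      ‖π * Complex.log (jt A (n + 2) (v0 (n + 2)) / jt A n (v0 n)) - (V + 3 * π / n)‖ ≤
        C / (n : ℝ) ^ 2 := by
  obtain ⟨κ, V, h1, h2, C, h3⟩ := Cor.main_odd hA
  refine ⟨V, h2, C, ?_⟩
  filter_upwards [h3, eventually_ge_atTop 2] with n hn hn2
  rw [jt_v0 hn2 (h1 n hn2), jt_v0 (by omega) (h1 (n + 2) (by omega))]
  exact hn

/-- the logarithm -/
theorem logarithm {A : ℕ} (hA : 4 ≤ A) : ∃ V c : ℝ,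
    IsGreatest {W : ℝ | ∃ w, IsAngle A A w ∧ volw A A w = W} V ∧
    ∃ C : ℝ, ∀ᶠ n : ℕ in atTop, jt A n (v0 n) ≠ 0 ∧
      ‖2 * π / n * Complex.log (jt A n (v0 n)) - (V + 3 * π * Real.log n / n + c / n)‖ ≤
        C / (n : ℝ) ^ 2 := by
  obtain ⟨κ, V, c, h1, h2, C, h3⟩ := Cor.main_even hA
  refine ⟨V, c, h2, C, ?_⟩
  filter_upwards [h3, eventually_ge_atTop 2] with n hn hn2
  rw [jt_v0 hn2 (h1 n hn2)]
  exact hn

/-- modulus and ratio -/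
theorem ratio {A : ℕ} (hA : 4 ≤ A) : ∃ V : ℝ,
    IsGreatest {W : ℝ | ∃ w, IsAngle A A w ∧ volw A A w = W} V ∧
    (∀ᶠ N : ℕ in atTop, jt A N (v0 N) ≠ 0) ∧
    Tendsto (fun N : ℕ => 2 * π * (Real.log ‖jt A N (v0 N)‖ / N)) atTop (𝓝 V) ∧
    Tendsto (fun N : ℕ => jt A (N + 1) (v0 (N + 1)) / jt A N (v0 N)) atTop
      (𝓝 (Complex.exp (V / (2 * π)))) ∧
    ∃ c : ℝ, 0 < c ∧ Tendsto (fun N : ℕ => jt A N (v0 N) / (((N : ℝ) ^ (3 / 2 : ℝ) : ℝ) *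
      Complex.exp (V / (2 * π) * N))) atTop (𝓝 c) := by
  obtain ⟨κ, V, h1, h2, h3, h4, h5, c, hc, h6⟩ := Cor.main_ratio hA
  have e : ∀ᶠ N : ℕ in atTop, jt A N (v0 N) = κ N := by
    filter_upwards [eventually_ge_atTop 2] with N hN
    exact jt_v0 hN (h1 N hN)
  refine ⟨V, h2, ?_, ?_, ?_, c, hc, ?_⟩
  · filter_upwards [h3, e] with N h3 h4
    rw [h4]
    exact h3
  · refine h4.congr' ?_
    filter_upwards [e] with N h4
    rw [h4]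
  · refine h5.congr' ?_
    filter_upwards [e, (tendsto_add_atTop_nat 1).eventually e] with N h4 h5
    rw [h4, h5]
  · refine h6.congr' ?_
    filter_upwards [e] with N h4
    rw [h4]

end Pool.Agent.W707.RT
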